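import Pool.Agent.Lib.MP_688fd0_co.SQ3.Iface
import Pool.Agent.Lib.MP_688fd0_co.SQ2.H62.Near

/-!
NEAR: a window can meet translates of few others only.
-/

set_option autoImplicit false

namespace Pool.Agent.Lib.MP_688fd0_co.SQ3

open Pool.Agent.Lib.MP_688fd0_co.OSF Pool.Agent.Lib.MP_688fd0_co.SQ2

namespace NearE

open SQ2.NearP

/-- The powers of `U` multiply by a power of `A` from the right. -/
theorem U_zpow {Q : Type} [Group Q] {B : Lb.{0, 0} Q} {a : B.L} {eps : Q →* ℤˣ} {D : Subgroup Q} {z : Q} {k : ℕ}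
    (H : Hyp B a eps D z k) (t : ℤ) (x : Q) : ∃ s : ℤ, (H.up.U ^ t) x = x * B.q a ^ s := by
  have h1 : ∀ x : Q, H.up.U x = x * B.q a ^ ((eps x : ℤˣ) : ℤ) := fun _ => rfl
  have h2 : ∀ x : Q, H.up.U⁻¹ x = x * B.q a ^ (-((eps x : ℤˣ) : ℤ)) := fun _ => rfl
  induction t generalizing x with
  | zero => exact ⟨0, by rw [zpow_zero, zpow_zero, mul_one]; rfl⟩
  | succ n ih =>
    obtain ⟨s, hs⟩ := ih (H.up.U x)
    refine ⟨(eps x : ℤˣ) + s, ?_⟩
    rw [zpow_add_one]
    show (H.up.U ^ (n : ℤ)) (H.up.U x) = _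
    rw [hs, h1, mul_assoc, ← zpow_add]
  | pred n ih =>
    obtain ⟨s, hs⟩ := ih (H.up.U⁻¹ x)
    refine ⟨-((eps x : ℤˣ) : ℤ) + s, ?_⟩
    rw [zpow_sub_one]
    show (H.up.U ^ (-(n : ℤ))) (H.up.U⁻¹ x) = _
    rw [hs, h2, mul_assoc, ← zpow_add]

end NearE

open SQ2.NearP NearE

/-- NEAR -/
theorem near : NearS := by
  classical
  intro Q _ B a eps D z k hH c W d cl N x b₁ b₂ j F rk hC hT i
  have := hH.fin
  have := hH.finL
  have := hH.nrm
  set A := B.q a with hA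
  -- the normal subgroup generated by `D` and `z`
  have hzn : (Subgroup.zpowers z).Normal := by
    refine ⟨fun n hn g => ?_⟩
    obtain ⟨t, rfl⟩ := Subgroup.mem_zpowers_iff.1 hn
    have h1 : g * z ^ t * g⁻¹ = (g * z * g⁻¹) ^ t := (conj_zpow (a := g) (b := z) (i := t)).symm
    rw [h1, hH.tw g]
    exact Subgroup.zpow_mem _ (Subgroup.zpow_mem_zpowers z _) t
  set E : Subgroup Q := D ⊔ Subgroup.zpowers z with hE
  have hAE : A ∈ E := by
    have h1 : A = z * (z⁻¹ * A) := by group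
    rw [h1]
    exact E.mul_mem (le_sup_right (a := D) (Subgroup.mem_zpowers z)) (le_sup_left (b := Subgroup.zpowers z) hH.mem)
  have hDE : ∀ δ ∈ D, δ ∈ E := fun δ h => le_sup_left (b := Subgroup.zpowers z) h
  have hEle : E ≤ D ⊔ Subgroup.zpowers A := by
    refine sup_le le_sup_left ?_
    rw [Subgroup.zpowers_le]
    have h1 : z = A * (z⁻¹ * A)⁻¹ := by group
    rw [h1]
    exact Subgroup.mul_mem _ (le_sup_right (a := D) (Subgroup.mem_zpowers A))
      (Subgroup.inv_mem _ (le_sup_left (b := Subgroup.zpowers A) hH.mem))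
  have hEdec : ∀ e ∈ E, ∃ δ ∈ D, ∃ t : ℤ, e = δ * A ^ t := by
    intro e he
    obtain ⟨δ, hδ, y, hy, rfl⟩ := Subgroup.mem_sup_of_normal_left.1 (hEle he)
    obtain ⟨t, rfl⟩ := Subgroup.mem_zpowers_iff.1 hy
    exact ⟨δ, hδ, t, rfl⟩
  let π : Q →* Q ⧸ E := QuotientGroup.mk' E
  have hπ1 : ∀ e ∈ E, π e = 1 := fun e he => (QuotientGroup.eq_one_iff e).2 he
  have hπU : ∀ (t : ℤ) (y : Q), π ((hH.up.U ^ t) y) = π y := by
    intro t y
    obtain ⟨s, hs⟩ := U_zpow hH t y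
    rw [hs, map_mul, hπ1 _ (E.zpow_mem hAE s), mul_one]
  -- near paths
  let nr : Fin N → Prop := fun i' => ∃ y ∈ F i, ∃ y' ∈ F i', ∃ l l' : ℤ, (hH.up.U ^ l) y = (hH.up.U ^ l') y'
  have hx : ∀ i', nr i' → ∃ f f' : Fin 4 → Option B.L, π (x i') = π (x i * wv B f * (wv B f')⁻¹) := by
    rintro i' ⟨y, hy, y', hy', l, l', he⟩
    obtain ⟨w, hw, o, ho⟩ := hC.fsub i y hy
    obtain ⟨w', hw', o', ho'⟩ := hC.fsub i' y' hy'
    obtain ⟨f, hf⟩ := exists_wv w hw
    obtain ⟨f', hf'⟩ := exists_wv w' hw'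
    refine ⟨f, f', ?_⟩
    rw [hf] at ho
    rw [hf'] at ho'
    have e1 : π y = π (x i * wv B f) := by
      have h1 := hπ1 _ (hDE _ ho)
      rw [map_mul, map_inv, hπU] at h1
      exact (inv_mul_eq_one.1 h1).symm
    have e2 : π y' = π (x i' * wv B f') := by
      have h1 := hπ1 _ (hDE _ ho')
      rw [map_mul, map_inv, hπU] at h1
      exact (inv_mul_eq_one.1 h1).symm
    have e3 := congrArg π he
    rw [hπU, hπU, e1, e2] at e3
    rw [map_mul π (x i * wv B f), e3, ← map_mul, mul_inv_cancel_right]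
  -- a line for each path
  have hg : ∀ i', ∃ g : Q, (∃ p : Q → Prop, p g ∧ ∀ y, p y → ∀ i'', i'' ≠ i' →
      ((y : Q ⧸ Subgroup.zpowers A) = (x i'' : Q) ∨ (y : Q ⧸ Subgroup.zpowers A) = (x i'' * B.q (b₁ i'') : Q) ∨
        (y : Q ⧸ Subgroup.zpowers A) = ((hH.up.U ^ j i'') (x i'') * B.q (b₂ i'') : Q)) → rk i'' < rk i') ∧
      (g = x i' ∨ g = x i' * B.q (b₁ i') ∨ g = (hH.up.U ^ j i') (x i') * B.q (b₂ i')) := by
    intro i'
    obtain ⟨p, hp, hp'⟩ := hT.two i'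
    rcases hp with ⟨h, -⟩ | ⟨h, -⟩ | ⟨h, -⟩
    · exact ⟨_, ⟨p, h, hp'⟩, Or.inl rfl⟩
    · exact ⟨_, ⟨p, h, hp'⟩, Or.inl rfl⟩
    · exact ⟨_, ⟨p, h, hp'⟩, Or.inr (Or.inl rfl)⟩
  choose g hg1 hg2 using hg
  have hginj : ∀ i' i'', (g i' : Q ⧸ Subgroup.zpowers A) = (g i'' : Q) → i' = i'' := by
    intro i' i'' he
    by_contra hne
    have key : ∀ i' i'', (g i' : Q ⧸ Subgroup.zpowers A) = (g i'' : Q) → i' ≠ i'' → rk i'' < rk i' := by
      intro i' i'' he hne
      obtain ⟨p, h1, h2⟩ := hg1 i'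
      refine h2 _ h1 i'' (Ne.symm hne) ?_
      rcases hg2 i'' with h | h | h
      · left; rw [he, h]
      · right; left; rw [he, h]
      · right; right; rw [he, h]
    have h1 := key i' i'' he hne
    have h2 := key i'' i' he.symm (Ne.symm hne)
    omega
  -- the representation of the lines
  let G : ((Fin 4 → Option B.L) × (Fin 4 → Option B.L)) × (Option B.L × D) → Q ⧸ Subgroup.zpowers A := fun p =>
    ((x i * wv B p.1.1 * (wv B p.1.2)⁻¹ * ov B p.2.1 * (p.2.2 : Q) : Q) : Q ⧸ Subgroup.zpowers A)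
  have hrep : ∀ i', nr i' → ∃ p, G p = (g i' : Q ⧸ Subgroup.zpowers A) := by
    intro i' hi'
    obtain ⟨f, f', hf⟩ := hx i' hi'
    have h1 : ∃ v : Option B.L, π (g i') = π (x i * wv B f * (wv B f')⁻¹ * ov B v) := by
      rcases hg2 i' with h | h | h
      · refine ⟨none, ?_⟩
        rw [h, hf]
        show _ = π (x i * wv B f * (wv B f')⁻¹ * 1)
        rw [mul_one]
      · refine ⟨some (b₁ i'), ?_⟩
        rw [h, map_mul, hf, ← map_mul]
        rfl
      · refine ⟨some (b₂ i'), ?_⟩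
        have h3 : π ((hH.up.U ^ j i') (x i')) = π (x i') := by
          have h4 := hπU (j i') (x i')
          rwa [zpow_natCast] at h4
        rw [h, map_mul, h3, hf, ← map_mul]
        rfl
    obtain ⟨v, hv⟩ := h1
    have h2 : (x i * wv B f * (wv B f')⁻¹ * ov B v)⁻¹ * g i' ∈ E := by
      rw [← QuotientGroup.eq]
      exact hv.symm
    obtain ⟨δ, hδ, t, ht⟩ := hEdec _ h2
    refine ⟨((f, f'), (v, ⟨δ, hδ⟩)), ?_⟩
    show ((x i * wv B f * (wv B f')⁻¹ * ov B v * δ : Q) : Q ⧸ Subgroup.zpowers A) = (g i' : Q)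
    rw [QuotientGroup.eq]
    have h3 : (x i * wv B f * (wv B f')⁻¹ * ov B v * δ)⁻¹ * g i' = A ^ t := by
      rw [mul_inv_rev, mul_assoc, ht, inv_mul_cancel_left]
    rw [h3]
    exact Subgroup.zpow_mem_zpowers A t
  refine ⟨Finset.univ.filter nr, ?_, ?_⟩
  · have h1 : (Finset.univ.filter nr).card = Nat.card {i' // nr i'} := by
      rw [Nat.card_eq_fintype_card, Fintype.card_subtype]
    rw [h1]
    choose ψ hψ using hrep
    have h2 : Function.Injective fun i' : {i' // nr i'} => ψ i'.1 i'.2 := by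
      intro i' i'' h
      have h3 : G (ψ i'.1 i'.2) = G (ψ i''.1 i''.2) := congrArg G h
      rw [hψ, hψ] at h3
      exact Subtype.ext (hginj _ _ h3)
    have h3 := Nat.card_le_card_of_injective _ h2
    have h4 : Nat.card (((Fin 4 → Option B.L) × (Fin 4 → Option B.L)) × (Option B.L × D)) =
        ((Nat.card B.L + 1) ^ 4 * (Nat.card B.L + 1) ^ 4) * ((Nat.card B.L + 1) * Nat.card D) := by
      have h5 : Nat.card (Option B.L) = Nat.card B.L + 1 := Finite.card_option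
      rw [Nat.card_prod, Nat.card_prod, Nat.card_prod, Nat.card_fun, h5, Nat.card_eq_fintype_card (α := Fin 4),
        Fintype.card_fin]
    rw [h4] at h3
    have h5 : Nat.card D ≤ k := Nat.le_of_dvd hH.kpos hH.card
    calc Nat.card {i' // nr i'} ≤ _ := h3
      _ = (Nat.card B.L + 1) ^ 9 * Nat.card D := by ring
      _ ≤ (Nat.card B.L + 2) ^ 9 * k := Nat.mul_le_mul (Nat.pow_le_pow_left (by omega) 9) h5
      _ ≤ (Nat.card B.L + 2) ^ 10 * k :=
        Nat.mul_le_mul_right k (Nat.pow_le_pow_right (by omega) (by omega))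
  · intro i' hi' y hy y' hy' l l' he
    apply hi'
    rw [Finset.mem_filter]
    exact ⟨Finset.mem_univ _, y, hy, y', hy', l, l', he⟩

end Pool.Agent.Lib.MP_688fd0_co.SQ3
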